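import Mathlib
import Pool.Agent.H438R2.PD.A3
set_option autoImplicit false

/-! # Summation of the bilinear pieces -/

namespace Pool.Agent.TH554.J1595

open MeasureTheory Set Complex
open scoped ENNReal NNReal

/-- summation of the bilinear pieces -/
theorem dyadic_sum {X : Type*} [MeasurableSpace X] (μ : Measure X) (p : ℝ) (hp : 2 < p)
    (C₁ C₂ : ℝ≥0) :
    ∃ C : ℝ≥0, ∀ (N : ℝ≥0∞) (F : X → ℝ≥0∞) (H : ℕ → X → ℝ≥0∞), (∀ k, Measurable (H k)) →
      (∀ x, F x ≤ ∑' k, H k x) →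
      (∀ k x, H k x ≤ ENNReal.ofReal ((1 / 2) ^ k) * (C₁ * N ^ (1 / 2 : ℝ))) →
      (∀ k, ∫⁻ x, H k x ^ 2 ∂μ ≤ C₂ * N) → ∫⁻ x, F x ^ p ∂μ ≤ C * N ^ (p / 2) := by
  have hp1 : 1 < p := by linarith
  have hp0 : 0 < p := by linarith
  set e : ℝ := (p - 2) / (2 * (p - 1)) with he
  have he0 : 0 < e := div_pos (by linarith) (by linarith)
  set r : ℝ := (1 / 2 : ℝ) ^ e with hr
  have hr0 : 0 < r := Real.rpow_pos_of_pos (by norm_num) _
  have hr1 : r < 1 := Real.rpow_lt_one (by norm_num) (by norm_num) he0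
  set ρ : ℝ := (1 / 2 : ℝ) ^ ((p - 2) / 2) with hρ
  have hρ0 : 0 < ρ := Real.rpow_pos_of_pos (by norm_num) _
  have hρ1 : ρ < 1 := Real.rpow_lt_one (by norm_num) (by norm_num) (by linarith)
  have hr1' : 0 < 1 - r := by linarith
  have hρ1' : 0 < 1 - ρ := by linarith
  set K : ℝ≥0∞ := (ENNReal.ofReal ((1 - r)⁻¹)) ^ (p - 1) * (ENNReal.ofReal ((1 - ρ)⁻¹) *
    ((C₁ : ℝ≥0∞) ^ (p - 2) * C₂)) with hK
  have hKtop : K ≠ ⊤ := by
    rw [hK]
    refine ENNReal.mul_ne_top (ENNReal.rpow_ne_top_of_nonneg (by linarith) ENNReal.ofReal_ne_top)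
      (ENNReal.mul_ne_top ENNReal.ofReal_ne_top (ENNReal.mul_ne_top
        (ENNReal.rpow_ne_top_of_nonneg (by linarith) ENNReal.coe_ne_top) ENNReal.coe_ne_top))
  refine ⟨K.toNNReal, fun N F H hmeas hF hsup hl2 => ?_⟩
  rw [ENNReal.coe_toNNReal hKtop]
  set c : ℕ → ℝ≥0∞ := fun k => ENNReal.ofReal (r ^ k) with hc
  have hc0 : ∀ k, c k ≠ 0 := fun k => by
    rw [hc]
    simp only [ne_eq, ENNReal.ofReal_eq_zero, not_le]
    positivity
  have hc1 : ∀ k, c k ≠ ∞ := fun k => ENNReal.ofReal_ne_top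
  have step1 : ∀ x, F x ^ p ≤ (∑' k, c k) ^ (p - 1) * ∑' k, c k ^ (1 - p) * H k x ^ p := by
    intro x
    exact (ENNReal.rpow_le_rpow (hF x) hp0.le).trans
      (Pool.Agent.H438R2.PD.A3.jensen_tsum p hp1 _ c hc0 hc1)
  have hmeas' : ∀ k, Measurable fun x => c k ^ (1 - p) * H k x ^ p := fun k =>
    ((hmeas k).pow_const p).const_mul _
  have step3 : ∀ k, ∫⁻ x, c k ^ (1 - p) * H k x ^ p ∂μ ≤
      ENNReal.ofReal (ρ ^ k) * ((C₁ : ℝ≥0∞) ^ (p - 2) * C₂ * N ^ (p / 2)) := by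
    intro k
    set S : ℝ≥0∞ := ENNReal.ofReal ((1 / 2) ^ k) * (C₁ * N ^ (1 / 2 : ℝ)) with hS
    have h1 : ∀ x, c k ^ (1 - p) * H k x ^ p ≤ (c k ^ (1 - p) * S ^ (p - 2)) * H k x ^ 2 := by
      intro x
      rw [mul_assoc]
      refine mul_le_mul' le_rfl ?_
      have h2 : H k x ^ p = H k x ^ (p - 2) * H k x ^ 2 := by
        rw [← ENNReal.rpow_two, ← ENNReal.rpow_add_of_nonneg _ _ (by linarith) (by norm_num)]
        congr 1
        ring
      rw [h2]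
      exact mul_le_mul' (ENNReal.rpow_le_rpow (hsup k x) (by linarith)) le_rfl
    have hck : c k ^ (1 - p) = ENNReal.ofReal ((r ^ k) ^ (1 - p)) := by
      rw [hc, ENNReal.ofReal_rpow_of_pos (by positivity)]
    calc ∫⁻ x, c k ^ (1 - p) * H k x ^ p ∂μ
        ≤ ∫⁻ x, (c k ^ (1 - p) * S ^ (p - 2)) * H k x ^ 2 ∂μ := lintegral_mono h1
      _ = (c k ^ (1 - p) * S ^ (p - 2)) * ∫⁻ x, H k x ^ 2 ∂μ :=
          lintegral_const_mul _ ((hmeas k).pow_const 2)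
      _ ≤ (c k ^ (1 - p) * S ^ (p - 2)) * (C₂ * N) := mul_le_mul' le_rfl (hl2 k)
      _ = ENNReal.ofReal (ρ ^ k) * ((C₁ : ℝ≥0∞) ^ (p - 2) * C₂ * N ^ (p / 2)) := by
          have h3 : S ^ (p - 2) = ENNReal.ofReal (((1 / 2 : ℝ) ^ k) ^ (p - 2)) *
              ((C₁ : ℝ≥0∞) ^ (p - 2) * N ^ ((p - 2) / 2)) := by
            rw [hS, ENNReal.mul_rpow_of_nonneg _ _ (by linarith),
              ENNReal.mul_rpow_of_nonneg _ _ (by linarith), ← ENNReal.rpow_mul,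
              ENNReal.ofReal_rpow_of_nonneg (by positivity) (by linarith)]
            congr 3
            ring
          have h4 := Pool.Agent.H438R2.PD.A3.exps p hp k
          rw [← he, ← hr, ← hρ] at h4
          have h5 : N ^ (p / 2) = N ^ ((p - 2) / 2) * N := by
            nth_rewrite 3 [← ENNReal.rpow_one N]
            rw [← ENNReal.rpow_add_of_nonneg _ _ (by linarith) (by norm_num)]
            congr 1
            ring
          rw [h3, hck, ← h4, ENNReal.ofReal_mul (by positivity), h5]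
          ring
  calc ∫⁻ x, F x ^ p ∂μ
      ≤ ∫⁻ x, (∑' k, c k) ^ (p - 1) * ∑' k, c k ^ (1 - p) * H k x ^ p ∂μ := lintegral_mono step1
    _ = (∑' k, c k) ^ (p - 1) * ∑' k, ∫⁻ x, c k ^ (1 - p) * H k x ^ p ∂μ := by
        rw [lintegral_const_mul _ (Measurable.ennreal_tsum hmeas'),
          lintegral_tsum fun k => (hmeas' k).aemeasurable]
    _ ≤ (∑' k, c k) ^ (p - 1) * ∑' k, ENNReal.ofReal (ρ ^ k) *
          ((C₁ : ℝ≥0∞) ^ (p - 2) * C₂ * N ^ (p / 2)) :=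
        mul_le_mul' le_rfl (ENNReal.tsum_le_tsum step3)
    _ = K * N ^ (p / 2) := by
        rw [ENNReal.tsum_mul_right, Pool.Agent.H438R2.PD.A3.tsum_geo ρ hρ0.le hρ1, hc,
          Pool.Agent.H438R2.PD.A3.tsum_geo r hr0.le hr1, hK]
        ring

/-- Jensen's inequality on a finite measure space -/
theorem lint_pow {X : Type*} [MeasurableSpace X] (μ : Measure X) (f : X → ℝ≥0∞)
    (hf : AEMeasurable f μ) :
    ∫⁻ x, f x ∂μ ≤ (μ univ) ^ (1 / 2 : ℝ) * (∫⁻ x, f x ^ 2 ∂μ) ^ (1 / 2 : ℝ) := by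
  have h := ENNReal.lintegral_mul_le_Lp_mul_Lq μ (p := 2) (q := 2) (by
    rw [Real.holderConjugate_iff]; norm_num) (f := fun _ => 1) (g := f) aemeasurable_const hf
  simp only [Pi.mul_apply, one_mul, lintegral_const, ENNReal.rpow_two, one_pow] at h
  exact h

end Pool.Agent.TH554.J1595
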