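import Mathlib
import Pool.Agent.TH554.J1595.A
import Pool.Agent.H438R2.BR.T11
import Pool.Agent.H789R2.FR.Sph
set_option autoImplicit false

/-! # The quarter circle: bilinear pieces -/

namespace Pool.Agent.TH554.J1595

open MeasureTheory Set Complex
open scoped ENNReal NNReal RealInnerProductSpace
open Pool.Agent.H789R2.FR (E sg T)
open Pool.Agent.H438R2.BR (Q)

/-- the modulated density -/
noncomputable def ff (b : ℝ → ℂ) (x : E 2) (θ : ℝ) : ℂ :=
  b θ * Complex.exp (((-(x 0 * Real.cos θ + x 1 * Real.sin θ) : ℝ) : ℂ) * I)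

/-- the Fourier transform of the density on the quarter circle -/
noncomputable def FF (b : ℝ → ℂ) (x : E 2) : ℂ := ∫ θ in Q, ff b x θ

/-- the pairs of angles of distance about `2 ^ (-k)` -/
def SS (k : ℕ) : Set (ℝ × ℝ) :=
  {p | p.1 ∈ Q ∧ p.2 ∈ Q ∧ p.2 - p.1 ∈ Ioc ((1 / 2 : ℝ) ^ k) (2 * (1 / 2 : ℝ) ^ k)}

/-- the bilinear pieces -/
noncomputable def HH (b : ℝ → ℂ) (k : ℕ) (x : E 2) : ℂ := ∫ p in SS k, ff b x p.1 * ff b x p.2

theorem Q_meas : MeasurableSet Q := measurableSet_Ioo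

theorem SS_meas (k : ℕ) : MeasurableSet (SS k) := by
  unfold SS
  refine (measurable_fst Q_meas).inter ((measurable_snd Q_meas).inter ?_)
  exact (measurable_snd.sub measurable_fst) measurableSet_Ioc

theorem ff_norm (b : ℝ → ℂ) (x : E 2) (θ : ℝ) : ‖ff b x θ‖ = ‖b θ‖ := by
  unfold ff
  rw [norm_mul, Complex.norm_exp_ofReal_mul_I, mul_one]

theorem ff_enorm (b : ℝ → ℂ) (x : E 2) (θ : ℝ) : ‖ff b x θ‖ₑ = ‖b θ‖ₑ := by
  rw [← ofReal_norm, ff_norm, ofReal_norm]

theorem ff_meas (b : ℝ → ℂ) (hb : Measurable b) :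
    Measurable fun q : E 2 × ℝ => ff b q.1 q.2 := by
  unfold ff
  have h0 : Continuous fun z : E 2 × ℝ => z.1 0 := by fun_prop
  have h1 : Continuous fun z : E 2 × ℝ => z.1 1 := by fun_prop
  refine (hb.comp measurable_snd).mul ?_
  have h2 : Continuous fun q : E 2 × ℝ =>
      Complex.exp (((-(q.1 0 * Real.cos q.2 + q.1 1 * Real.sin q.2) : ℝ) : ℂ) * I) := by fun_prop
  exact h2.measurable

theorem ff_meas' (b : ℝ → ℂ) (hb : Measurable b) (x : E 2) : Measurable (ff b x) :=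
  (ff_meas b hb).comp measurable_prodMk_left

theorem Q_vol : volume Q = ENNReal.ofReal (Real.pi / 2) := by
  unfold Q
  rw [Real.volume_Ioo, sub_zero]

theorem QQ_int (b : ℝ → ℂ) (M : ℝ) (hb : Measurable b) (hM : ∀ u, ‖b u‖ ≤ M) (x : E 2) :
    IntegrableOn (fun p : ℝ × ℝ => ff b x p.1 * ff b x p.2) (Q ×ˢ Q) := by
  refine Measure.integrableOn_of_bounded (M := M * M) ?_ ?_ (Filter.Eventually.of_forall fun p => ?_)
  · rw [Measure.volume_eq_prod, Measure.prod_prod, Q_vol]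
    exact ENNReal.mul_ne_top ENNReal.ofReal_ne_top ENNReal.ofReal_ne_top
  · apply Measurable.aestronglyMeasurable
    exact ((ff_meas' b hb x).comp measurable_fst).mul ((ff_meas' b hb x).comp measurable_snd)
  · rw [norm_mul, ff_norm, ff_norm]
    exact mul_le_mul (hM _) (hM _) (norm_nonneg _) ((norm_nonneg _).trans (hM 0))

/-- the upper triangle -/
def DD : Set (ℝ × ℝ) := {p | p.1 ∈ Q ∧ p.2 ∈ Q ∧ p.1 < p.2}

/-- the lower triangle -/
def DD' : Set (ℝ × ℝ) := {p | p.1 ∈ Q ∧ p.2 ∈ Q ∧ p.2 < p.1}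

theorem DD_meas : MeasurableSet DD :=
  (measurable_fst Q_meas).inter ((measurable_snd Q_meas).inter
    (measurableSet_lt measurable_fst measurable_snd))

theorem DD'_meas : MeasurableSet DD' :=
  (measurable_fst Q_meas).inter ((measurable_snd Q_meas).inter
    (measurableSet_lt measurable_snd measurable_fst))

theorem iUnion_SS : ⋃ k, SS k = DD := by
  ext p
  simp only [mem_iUnion]
  constructor
  · rintro ⟨k, h1, h2, h3⟩
    have h4 : (0 : ℝ) < (1 / 2) ^ k := by positivity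
    exact ⟨h1, h2, by linarith [h3.1]⟩
  · rintro ⟨h1, h2, h3⟩
    have h4 : p.2 - p.1 ∈ Ioc (0 : ℝ) 2 := by
      refine ⟨by linarith, ?_⟩
      have h5 := h1.1
      have h6 := h2.2
      have h7 := Real.pi_le_four
      linarith
    rw [← Pool.Agent.H438R2.PD.A1.Ioc_union, mem_iUnion] at h4
    obtain ⟨k, hk⟩ := h4
    exact ⟨k, h1, h2, hk⟩

theorem SS_disj : Pairwise (Function.onFun Disjoint SS) := by
  intro i j hij
  have h := Pool.Agent.H438R2.PD.A1.Ioc_disj hij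
  rw [Function.onFun, Set.disjoint_left] at h ⊢
  intro p hp hp'
  exact h hp.2.2 hp'.2.2

theorem diag_null : volume {p : ℝ × ℝ | p.1 = p.2} = 0 := by
  have hm : MeasurableSet {p : ℝ × ℝ | p.1 = p.2} := measurableSet_eq_fun measurable_fst measurable_snd
  rw [Measure.volume_eq_prod, Measure.measure_prod_null hm]
  refine Filter.Eventually.of_forall fun x => ?_
  have h : (Prod.mk x ⁻¹' {p : ℝ × ℝ | p.1 = p.2}) = {x} := by
    ext y
    simp [eq_comm]
  show volume (Prod.mk x ⁻¹' {p : ℝ × ℝ | p.1 = p.2}) = 0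
  rw [h]
  simp

theorem QQ_ae : (Q ×ˢ Q : Set (ℝ × ℝ)) =ᵐ[volume] (DD ∪ DD' : Set (ℝ × ℝ)) := by
  have h : ∀ᵐ p : ℝ × ℝ, p.1 ≠ p.2 := by
    rw [ae_iff]
    simp only [not_not]
    exact diag_null
  filter_upwards [h] with p hp
  apply propext
  constructor
  · rintro ⟨h1, h2⟩
    rcases lt_or_gt_of_ne hp with h3 | h3
    · exact Or.inl ⟨h1, h2, h3⟩
    · exact Or.inr ⟨h1, h2, h3⟩
  · rintro (h1 | h1)
    · exact ⟨h1.1, h1.2.1⟩
    · exact ⟨h1.1, h1.2.1⟩

theorem FF_sq (b : ℝ → ℂ) (M : ℝ) (hb : Measurable b) (hM : ∀ u, ‖b u‖ ≤ M) (x : E 2) :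
    FF b x * FF b x = 2 * ∫ p in DD, ff b x p.1 * ff b x p.2 := by
  have hint := QQ_int b M hb hM x
  have h1 : FF b x * FF b x = ∫ p in Q ×ˢ Q, ff b x p.1 * ff b x p.2 := by
    unfold FF
    rw [← setIntegral_prod_mul]
    rfl
  have hD : DD ⊆ Q ×ˢ Q := fun p hp => ⟨hp.1, hp.2.1⟩
  have hD' : DD' ⊆ Q ×ˢ Q := fun p hp => ⟨hp.1, hp.2.1⟩
  have hdisj : Disjoint DD DD' := by
    rw [Set.disjoint_left]
    intro p hp hp'
    exact absurd hp.2.2 (not_lt.2 hp'.2.2.le)
  have h2 : ∫ p in DD', ff b x p.1 * ff b x p.2 = ∫ p in DD, ff b x p.1 * ff b x p.2 := by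
    have h3 := (MeasureTheory.Measure.measurePreserving_swap (μ := (volume : Measure ℝ))
      (ν := (volume : Measure ℝ))).setIntegral_preimage_emb
      (MeasurableEquiv.prodComm (α := ℝ) (β := ℝ)).measurableEmbedding
      (fun p : ℝ × ℝ => ff b x p.1 * ff b x p.2) DD
    have h4 : (Prod.swap ⁻¹' DD : Set (ℝ × ℝ)) = DD' := by
      ext p
      constructor
      · rintro ⟨h5, h6, h7⟩
        exact ⟨h6, h5, h7⟩
      · rintro ⟨h5, h6, h7⟩
        exact ⟨h6, h5, h7⟩
    rw [h4] at h3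
    refine Eq.trans ?_ h3
    refine integral_congr_ae (Filter.Eventually.of_forall fun p => ?_)
    exact mul_comm _ _
  rw [h1, setIntegral_congr_set QQ_ae, setIntegral_union hdisj DD'_meas (hint.mono_set hD)
    (hint.mono_set hD'), h2, two_mul]

theorem HH_hasSum (b : ℝ → ℂ) (M : ℝ) (hb : Measurable b) (hM : ∀ u, ‖b u‖ ≤ M) (x : E 2) :
    HasSum (fun k => HH b k x) (∫ p in DD, ff b x p.1 * ff b x p.2) := by
  have hint := QQ_int b M hb hM x
  have hD : DD ⊆ Q ×ˢ Q := fun p hp => ⟨hp.1, hp.2.1⟩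
  rw [← iUnion_SS] at hD ⊢
  exact hasSum_integral_iUnion SS_meas SS_disj (hint.mono_set hD)

/-- the square of the Fourier transform is bounded by the sum of the pieces -/
theorem FF_le (b : ℝ → ℂ) (M : ℝ) (hb : Measurable b) (hM : ∀ u, ‖b u‖ ≤ M) (x : E 2) :
    ‖FF b x‖ₑ ^ 2 ≤ ∑' k, 2 * ‖HH b k x‖ₑ := by
  have h1 : ‖FF b x‖ₑ ^ 2 = 2 * ‖∫ p in DD, ff b x p.1 * ff b x p.2‖ₑ := by
    rw [sq, ← enorm_mul, FF_sq b M hb hM, enorm_mul]
    congr 1
    rw [← ofReal_norm]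
    simp
  rw [h1, ENNReal.tsum_mul_left]
  refine mul_le_mul' le_rfl ?_
  rw [← (HH_hasSum b M hb hM x).tsum_eq]
  exact enorm_tsum_le_tsum_enorm

theorem HH_meas (b : ℝ → ℂ) (hb : Measurable b) (k : ℕ) : Measurable (HH b k) := by
  have h1 : StronglyMeasurable (Function.uncurry fun (x : E 2) (p : ℝ × ℝ) =>
      ff b x p.1 * ff b x p.2) := by
    apply Measurable.stronglyMeasurable
    exact ((ff_meas b hb).comp (measurable_fst.prodMk (measurable_fst.comp measurable_snd))).mul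
      ((ff_meas b hb).comp (measurable_fst.prodMk (measurable_snd.comp measurable_snd)))
  exact (h1.integral_prod_right (ν := volume.restrict (SS k))).measurable

/-- integration over a strip -/
theorem strip (h : ℝ → ℝ≥0∞) (hh : Measurable h) (k : ℕ) :
    ∫⁻ p in SS k, (h p.1 + h p.2) ≤ ENNReal.ofReal ((1 / 2) ^ k) * (2 * ∫⁻ θ in Q, h θ) := by
  have hδ : (0 : ℝ) < (1 / 2) ^ k := by positivity
  set δ : ℝ := (1 / 2) ^ k with hδd
  have e1 : ∫⁻ p in SS k, h p.1 ≤ ENNReal.ofReal δ * ∫⁻ θ in Q, h θ := by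
    rw [← lintegral_indicator (SS_meas k), Measure.volume_eq_prod, lintegral_prod _ (by
      exact ((hh.comp measurable_fst).indicator (SS_meas k)).aemeasurable)]
    rw [← lintegral_indicator Q_meas, ← lintegral_const_mul _ (hh.indicator Q_meas)]
    refine lintegral_mono fun θ => ?_
    calc ∫⁻ y, (SS k).indicator (fun p => h p.1) (θ, y)
        ≤ ∫⁻ y, (Ioc (θ + δ) (θ + 2 * δ)).indicator (fun _ => Q.indicator h θ) y := by
          refine lintegral_mono fun y => ?_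
          by_cases hy : (θ, y) ∈ SS k
          · rw [indicator_of_mem hy, indicator_of_mem, indicator_of_mem hy.1]
            have h1 := hy.2.2
            simp only [mem_Ioc] at h1 ⊢
            constructor <;> linarith
          · rw [indicator_of_notMem hy]
            exact zero_le
      _ = ENNReal.ofReal δ * Q.indicator h θ := by
          rw [lintegral_indicator measurableSet_Ioc, setLIntegral_const, Real.volume_Ioc, mul_comm]
          congr 2
          ring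
  have e2 : ∫⁻ p in SS k, h p.2 ≤ ENNReal.ofReal δ * ∫⁻ θ in Q, h θ := by
    rw [← lintegral_indicator (SS_meas k), Measure.volume_eq_prod, lintegral_prod_symm _ (by
      exact ((hh.comp measurable_snd).indicator (SS_meas k)).aemeasurable)]
    rw [← lintegral_indicator Q_meas, ← lintegral_const_mul _ (hh.indicator Q_meas)]
    refine lintegral_mono fun θ => ?_
    calc ∫⁻ y, (SS k).indicator (fun p => h p.2) (y, θ)
        ≤ ∫⁻ y, (Ico (θ - 2 * δ) (θ - δ)).indicator (fun _ => Q.indicator h θ) y := by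
          refine lintegral_mono fun y => ?_
          by_cases hy : (y, θ) ∈ SS k
          · rw [indicator_of_mem hy, indicator_of_mem, indicator_of_mem hy.2.1]
            have h1 := hy.2.2
            simp only [mem_Ioc, mem_Ico] at h1 ⊢
            constructor <;> linarith
          · rw [indicator_of_notMem hy]
            exact zero_le
      _ = ENNReal.ofReal δ * Q.indicator h θ := by
          rw [lintegral_indicator measurableSet_Ico, setLIntegral_const, Real.volume_Ico, mul_comm]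
          congr 2
          ring
  have hm1 : Measurable fun p : ℝ × ℝ => h p.1 := hh.comp measurable_fst
  rw [lintegral_add_left hm1]
  calc _ ≤ (ENNReal.ofReal δ * ∫⁻ θ in Q, h θ) + (ENNReal.ofReal δ * ∫⁻ θ in Q, h θ) :=
        add_le_add e1 e2
    _ = ENNReal.ofReal δ * (2 * ∫⁻ θ in Q, h θ) := by ring

theorem mul_le_sq_add (a b : ℝ≥0∞) : a * b ≤ a ^ 2 + b ^ 2 := by
  rcases le_total a b with h | h
  · calc a * b ≤ b * b := mul_le_mul' h le_rfl
      _ = b ^ 2 := (sq b).symm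
      _ ≤ a ^ 2 + b ^ 2 := le_add_self
  · calc a * b ≤ a * a := mul_le_mul' le_rfl h
      _ = a ^ 2 := (sq a).symm
      _ ≤ a ^ 2 + b ^ 2 := le_self_add

/-- the sup bound -/
theorem HH_sup (b : ℝ → ℂ) (hb : Measurable b) (k : ℕ) (x : E 2) :
    ‖HH b k x‖ₑ ≤ ENNReal.ofReal ((1 / 2) ^ k) *
      (4 * (∫⁻ θ in Q, ‖b θ‖ₑ ^ 4) ^ (1 / 2 : ℝ)) := by
  have hbm : Measurable fun θ => ‖b θ‖ₑ ^ 2 := hb.enorm.pow_const 2
  calc ‖HH b k x‖ₑ ≤ ∫⁻ p in SS k, ‖ff b x p.1 * ff b x p.2‖ₑ := enorm_integral_le_lintegral_enorm _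
    _ = ∫⁻ p in SS k, ‖b p.1‖ₑ * ‖b p.2‖ₑ := by
        refine lintegral_congr fun p => ?_
        rw [enorm_mul, ff_enorm, ff_enorm]
    _ ≤ ∫⁻ p in SS k, (‖b p.1‖ₑ ^ 2 + ‖b p.2‖ₑ ^ 2) := lintegral_mono fun p => mul_le_sq_add _ _
    _ ≤ ENNReal.ofReal ((1 / 2) ^ k) * (2 * ∫⁻ θ in Q, ‖b θ‖ₑ ^ 2) := strip _ hbm k
    _ ≤ _ := by
        refine mul_le_mul' le_rfl ?_
        have h1 := lint_pow (volume.restrict Q) (fun θ => ‖b θ‖ₑ ^ 2) hbm.aemeasurable
        rw [Measure.restrict_apply_univ, Q_vol] at h1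
        have h2 : ENNReal.ofReal (Real.pi / 2) ^ (1 / 2 : ℝ) ≤ 2 := by
          calc ENNReal.ofReal (Real.pi / 2) ^ (1 / 2 : ℝ) ≤ (4 : ℝ≥0∞) ^ (1 / 2 : ℝ) := by
                refine ENNReal.rpow_le_rpow ?_ (by norm_num)
                rw [show (4 : ℝ≥0∞) = ENNReal.ofReal 4 by norm_num]
                apply ENNReal.ofReal_le_ofReal
                linarith [Real.pi_le_four]
            _ = 2 := by
                rw [show (4 : ℝ≥0∞) = 2 ^ (2 : ℝ) by norm_num, ← ENNReal.rpow_mul]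
                norm_num
        calc 2 * ∫⁻ θ in Q, ‖b θ‖ₑ ^ 2
            ≤ 2 * (ENNReal.ofReal (Real.pi / 2) ^ (1 / 2 : ℝ) *
                (∫⁻ θ in Q, (‖b θ‖ₑ ^ 2) ^ 2) ^ (1 / 2 : ℝ)) := mul_le_mul' le_rfl h1
          _ ≤ 2 * (2 * (∫⁻ θ in Q, ‖b θ‖ₑ ^ 4) ^ (1 / 2 : ℝ)) := by
              refine mul_le_mul' le_rfl (mul_le_mul' h2 (le_of_eq ?_))
              congr 1
              refine lintegral_congr fun θ => ?_
              rw [← pow_mul]
          _ = 4 * (∫⁻ θ in Q, ‖b θ‖ₑ ^ 4) ^ (1 / 2 : ℝ) := by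
              rw [← mul_assoc]
              norm_num

end Pool.Agent.TH554.J1595
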