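import Mathlib
import Pool.Agent.TH554.J1595.B
import Pool.Agent.Helper390.CovarioA
set_option autoImplicit false

/-! # The `L²` bound of the bilinear pieces -/

namespace Pool.Agent.TH554.J1595

open MeasureTheory Set Complex
open scoped ENNReal NNReal RealInnerProductSpace FourierTransform
open Pool.Agent.H789R2.FR (E sg T)
open Pool.Agent.H438R2.BR (Q)

/-- the sum of two unit vectors -/
noncomputable def Ph (p : ℝ × ℝ) : ℝ × ℝ :=
  (Real.cos p.1 + Real.cos p.2, Real.sin p.1 + Real.sin p.2)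

/-- half the length -/
noncomputable def hl (y : ℝ × ℝ) : ℝ := Real.sqrt (y.1 ^ 2 + y.2 ^ 2) / 2

/-- the inverse of `Ph` -/
noncomputable def Ps (y : ℝ × ℝ) : ℝ × ℝ :=
  (Real.arccos (y.1 / (2 * hl y)) - Real.arccos (hl y),
    Real.arccos (y.1 / (2 * hl y)) + Real.arccos (hl y))

theorem Ps_Ph {p : ℝ × ℝ} (hp : p ∈ DD) : Ps (Ph p) = p := by
  obtain ⟨⟨h1, h2⟩, ⟨h3, h4⟩, h5⟩ := hp
  obtain ⟨ψ, hψ⟩ : ∃ ψ, ψ = (p.1 + p.2) / 2 := ⟨_, rfl⟩
  obtain ⟨η, hη⟩ : ∃ η, η = (p.2 - p.1) / 2 := ⟨_, rfl⟩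
  have e1 : p.1 = ψ - η := by rw [hψ, hη]; ring
  have e2 : p.2 = ψ + η := by rw [hψ, hη]; ring
  have hη0 : 0 < η := by rw [hη]; linarith
  have hη1 : η < Real.pi / 2 := by rw [hη]; linarith
  have hψ0 : 0 < ψ := by rw [hψ]; linarith
  have hψ1 : ψ < Real.pi / 2 := by rw [hψ]; linarith
  have hc : 0 < Real.cos η := Real.cos_pos_of_mem_Ioo ⟨by linarith, hη1⟩
  have f1 : (Ph p).1 = 2 * Real.cos ψ * Real.cos η := by
    unfold Ph
    simp only [e1, e2, Real.cos_sub, Real.cos_add]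
    ring
  have f2 : (Ph p).2 = 2 * Real.sin ψ * Real.cos η := by
    unfold Ph
    simp only [e1, e2, Real.sin_sub, Real.sin_add]
    ring
  have f3 : hl (Ph p) = Real.cos η := by
    unfold hl
    have : (Ph p).1 ^ 2 + (Ph p).2 ^ 2 = (2 * Real.cos η) ^ 2 := by
      rw [f1, f2]
      have := Real.sin_sq_add_cos_sq ψ
      linear_combination (4 * Real.cos η ^ 2) * this
    rw [this, Real.sqrt_sq (by positivity)]
    ring
  have f4 : (Ph p).1 / (2 * hl (Ph p)) = Real.cos ψ := by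
    rw [f1, f3]
    field_simp
  have f5 : Real.arccos (Real.cos ψ) = ψ :=
    Real.arccos_cos hψ0.le (by linarith [Real.pi_pos])
  have f6 : Real.arccos (Real.cos η) = η :=
    Real.arccos_cos hη0.le (by linarith [Real.pi_pos])
  unfold Ps
  rw [f4, f3, f5, f6, ← e1, ← e2]

theorem hl_meas : Measurable hl := by
  unfold hl
  exact (Continuous.measurable (by fun_prop)).div_const _

theorem Ps_meas : Measurable Ps := by
  have h1 : Measurable fun y : ℝ × ℝ => Real.arccos (y.1 / (2 * hl y)) :=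
    Real.continuous_arccos.measurable.comp (measurable_fst.div (hl_meas.const_mul 2))
  have h2 : Measurable fun y : ℝ × ℝ => Real.arccos (hl y) :=
    Real.continuous_arccos.measurable.comp hl_meas
  exact (h1.sub h2).prodMk (h1.add h2)

/-- the derivative of `Ph` -/
noncomputable def LL (p : ℝ × ℝ) : ℝ × ℝ →L[ℝ] ℝ × ℝ :=
  ((-Real.sin p.1) • ContinuousLinearMap.fst ℝ ℝ ℝ +
    (-Real.sin p.2) • ContinuousLinearMap.snd ℝ ℝ ℝ).prod
  ((Real.cos p.1) • ContinuousLinearMap.fst ℝ ℝ ℝ +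
    (Real.cos p.2) • ContinuousLinearMap.snd ℝ ℝ ℝ)

theorem Ph_deriv (p : ℝ × ℝ) : HasFDerivAt Ph (LL p) p := by
  unfold Ph LL
  refine HasFDerivAt.prodMk ?_ ?_
  · exact ((Real.hasDerivAt_cos p.1).comp_hasFDerivAt p hasFDerivAt_fst).add
      ((Real.hasDerivAt_cos p.2).comp_hasFDerivAt p hasFDerivAt_snd)
  · exact ((Real.hasDerivAt_sin p.1).comp_hasFDerivAt p hasFDerivAt_fst).add
      ((Real.hasDerivAt_sin p.2).comp_hasFDerivAt p hasFDerivAt_snd)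

theorem LL_det (p : ℝ × ℝ) : (LL p).det = Real.sin (p.2 - p.1) := by
  unfold LL
  rw [← Matrix.toLin_finTwoProd_toContinuousLinearMap]
  simp only [LinearMap.det_toContinuousLinearMap, LinearMap.det_toLin, Matrix.det_fin_two_of]
  rw [Real.sin_sub]
  ring

theorem SS_sub (k : ℕ) : SS k ⊆ DD := by
  rw [← iUnion_SS]
  exact subset_iUnion SS k

theorem Ph_inj (k : ℕ) : InjOn Ph (SS k) := by
  intro p hp q hq h
  rw [← Ps_Ph (SS_sub k hp), ← Ps_Ph (SS_sub k hq), h]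

theorem image_meas (k : ℕ) : MeasurableSet (Ph '' SS k) :=
  measurable_image_of_fderivWithin (SS_meas k) (fun p _ => (Ph_deriv p).hasFDerivWithinAt)
    (Ph_inj k)

theorem sin_lower {k : ℕ} {p : ℝ × ℝ} (hp : p ∈ SS k) :
    (2 / Real.pi) * (1 / 2) ^ k ≤ Real.sin (p.2 - p.1) := by
  obtain ⟨⟨h1, h2⟩, ⟨h3, h4⟩, h5, h6⟩ := hp
  have hδ : (0 : ℝ) < (1 / 2) ^ k := by positivity
  have h7 := Real.mul_le_sin (x := p.2 - p.1) (by linarith) (by linarith)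
  refine le_trans ?_ h7
  exact mul_le_mul_of_nonneg_left h5.le (by positivity)

/-- the density on the plane -/
noncomputable def G0 (b : ℝ → ℂ) (y : ℝ × ℝ) : ℂ :=
  b (Ps y).1 * b (Ps y).2 * (((Real.sin ((Ps y).2 - (Ps y).1))⁻¹ : ℝ) : ℂ)

/-- the coordinates -/
noncomputable def pr : E 2 ≃ᵐ ℝ × ℝ :=
  (MeasurableEquiv.toLp 2 (Fin 2 → ℝ)).symm.trans MeasurableEquiv.finTwoArrow

theorem pr_apply (v : E 2) : pr v = (v 0, v 1) := rfl

theorem pr_mp : MeasurePreserving pr (volume : Measure (E 2)) (volume : Measure (ℝ × ℝ)) :=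
  (volume_preserving_finTwoArrow ℝ).comp
    (EuclideanSpace.volume_preserving_symm_measurableEquiv_toLp (Fin 2))

/-- the density on `E 2` -/
noncomputable def GG (b : ℝ → ℂ) (k : ℕ) (v : E 2) : ℂ := (Ph '' SS k).indicator (G0 b) (pr v)

theorem G0_meas (b : ℝ → ℂ) (hb : Measurable b) : Measurable (G0 b) := by
  unfold G0
  refine ((hb.comp (measurable_fst.comp Ps_meas)).mul (hb.comp (measurable_snd.comp Ps_meas))).mul ?_
  apply Complex.measurable_ofReal.comp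
  exact (Real.continuous_sin.measurable.comp
    ((measurable_snd.comp Ps_meas).sub (measurable_fst.comp Ps_meas))).inv

theorem GG_meas (b : ℝ → ℂ) (hb : Measurable b) (k : ℕ) : Measurable (GG b k) :=
  ((G0_meas b hb).indicator (image_meas k)).comp pr.measurable

theorem HH_eq (b : ℝ → ℂ) (k : ℕ) (x : E 2) :
    HH b k x = 𝓕 (GG b k) ((2 * Real.pi)⁻¹ • x) := by
  rw [Real.fourier_eq']
  have hpi : Real.pi ≠ 0 := Real.pi_ne_zero
  let h : ℝ × ℝ → ℂ := fun y =>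
    Complex.exp (((-(x 0 * y.1 + x 1 * y.2) : ℝ) : ℂ) * I) * (Ph '' SS k).indicator (G0 b) y
  have e1 : ∀ v : E 2, Complex.exp (((-2 * Real.pi * ⟪v, (2 * Real.pi)⁻¹ • x⟫ : ℝ) : ℂ) * I) •
      GG b k v = h (pr v) := by
    intro v
    have e2 : -2 * Real.pi * ⟪v, (2 * Real.pi)⁻¹ • x⟫ = -(x 0 * (pr v).1 + x 1 * (pr v).2) := by
      rw [inner_smul_right, PiLp.inner_apply, Fin.sum_univ_two, pr_apply]
      simp only [RCLike.inner_apply, conj_trivial]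
      field_simp
    rw [e2, smul_eq_mul]
    rfl
  simp_rw [e1]
  rw [pr_mp.integral_comp' h]
  have e3 : ∀ y, h y = (Ph '' SS k).indicator (fun y =>
      Complex.exp (((-(x 0 * y.1 + x 1 * y.2) : ℝ) : ℂ) * I) * G0 b y) y := by
    intro y
    simp only [h]
    by_cases hy : y ∈ Ph '' SS k
    · rw [indicator_of_mem hy, indicator_of_mem hy]
    · rw [indicator_of_notMem hy, indicator_of_notMem hy, mul_zero]
  simp_rw [e3]
  rw [integral_indicator (image_meas k), integral_image_eq_integral_abs_det_fderiv_smul volume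
    (SS_meas k) (fun p _ => (Ph_deriv p).hasFDerivWithinAt) (Ph_inj k)]
  unfold HH
  refine setIntegral_congr_fun (SS_meas k) fun p hp => ?_
  have hs := sin_lower hp
  have hs0 : 0 < Real.sin (p.2 - p.1) := lt_of_lt_of_le (by positivity) hs
  have hs1 : ((Real.sin (p.2 - p.1) : ℝ) : ℂ) ≠ 0 := by
    rw [Ne, Complex.ofReal_eq_zero]
    exact hs0.ne'
  rw [LL_det, abs_of_pos hs0, Complex.real_smul]
  unfold G0 ff
  rw [Ps_Ph (SS_sub k hp)]
  have e4 : Complex.exp (((-(x 0 * (Ph p).1 + x 1 * (Ph p).2) : ℝ) : ℂ) * I) =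
      Complex.exp (((-(x 0 * Real.cos p.1 + x 1 * Real.sin p.1) : ℝ) : ℂ) * I) *
      Complex.exp (((-(x 0 * Real.cos p.2 + x 1 * Real.sin p.2) : ℝ) : ℂ) * I) := by
    rw [← Complex.exp_add]
    congr 1
    unfold Ph
    push_cast
    ring
  rw [e4, Complex.ofReal_inv]
  field_simp

theorem GG_l2 (b : ℝ → ℂ) (hb : Measurable b) (k : ℕ) :
    ∫⁻ v, ‖GG b k v‖ₑ ^ 2 ≤ ENNReal.ofReal Real.pi * ∫⁻ θ in Q, ‖b θ‖ₑ ^ 4 := by
  have hδ : (0 : ℝ) < (1 / 2) ^ k := by positivity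
  have hpi := Real.pi_pos
  have e1 : ∫⁻ v, ‖GG b k v‖ₑ ^ 2 = ∫⁻ y in Ph '' SS k, ‖G0 b y‖ₑ ^ 2 := by
    have h1 := pr_mp.lintegral_comp_emb pr.measurableEmbedding
      (fun y => ‖(Ph '' SS k).indicator (G0 b) y‖ₑ ^ 2)
    rw [← lintegral_indicator (image_meas k)]
    refine Eq.trans (Eq.trans ?_ h1) ?_
    · rfl
    · refine lintegral_congr fun y => ?_
      by_cases hy : y ∈ Ph '' SS k
      · rw [indicator_of_mem hy, indicator_of_mem hy]
      · rw [indicator_of_notMem hy, indicator_of_notMem hy]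
        simp
  rw [e1, lintegral_image_eq_lintegral_abs_det_fderiv_mul volume (SS_meas k)
    (fun p _ => (Ph_deriv p).hasFDerivWithinAt) (Ph_inj k)]
  calc ∫⁻ p in SS k, ENNReal.ofReal |(LL p).det| * ‖G0 b (Ph p)‖ₑ ^ 2
      ≤ ∫⁻ p in SS k, ENNReal.ofReal (Real.pi / 2 * ((1 / 2) ^ k)⁻¹) *
          (‖b p.1‖ₑ ^ 4 + ‖b p.2‖ₑ ^ 4) := by
        refine setLIntegral_mono' (SS_meas k) fun p hp => ?_
        have hs := sin_lower hp
        have hs0 : 0 < Real.sin (p.2 - p.1) := lt_of_lt_of_le (by positivity) hs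
        rw [LL_det, abs_of_pos hs0]
        unfold G0
        rw [Ps_Ph (SS_sub k hp), enorm_mul, enorm_mul, mul_pow, mul_pow]
        have e2 : ‖(((Real.sin (p.2 - p.1))⁻¹ : ℝ) : ℂ)‖ₑ =
            ENNReal.ofReal ((Real.sin (p.2 - p.1))⁻¹) := by
          rw [← ofReal_norm, Complex.norm_real, Real.norm_eq_abs,
            abs_of_pos (inv_pos.2 hs0)]
        rw [e2]
        have e3 : ENNReal.ofReal (Real.sin (p.2 - p.1)) * (‖b p.1‖ₑ ^ 2 * ‖b p.2‖ₑ ^ 2 *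
            ENNReal.ofReal ((Real.sin (p.2 - p.1))⁻¹) ^ 2) =
            ENNReal.ofReal ((Real.sin (p.2 - p.1))⁻¹) * (‖b p.1‖ₑ ^ 2 * ‖b p.2‖ₑ ^ 2) := by
          have e4 : ENNReal.ofReal (Real.sin (p.2 - p.1)) *
              ENNReal.ofReal ((Real.sin (p.2 - p.1))⁻¹) = 1 := by
            rw [← ENNReal.ofReal_mul hs0.le, mul_inv_cancel₀ hs0.ne', ENNReal.ofReal_one]
          calc _ = (ENNReal.ofReal (Real.sin (p.2 - p.1)) *
              ENNReal.ofReal ((Real.sin (p.2 - p.1))⁻¹)) *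
              (ENNReal.ofReal ((Real.sin (p.2 - p.1))⁻¹) * (‖b p.1‖ₑ ^ 2 * ‖b p.2‖ₑ ^ 2)) := by
                ring
            _ = _ := by rw [e4, one_mul]
        rw [e3]
        refine mul_le_mul' (ENNReal.ofReal_le_ofReal ?_) ?_
        · rw [inv_le_comm₀ hs0 (by positivity)]
          refine le_trans (le_of_eq ?_) hs
          field_simp
        · have e5 := mul_le_sq_add (‖b p.1‖ₑ ^ 2) (‖b p.2‖ₑ ^ 2)
          rw [← pow_mul, ← pow_mul] at e5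
          exact e5
    _ = ENNReal.ofReal (Real.pi / 2 * ((1 / 2) ^ k)⁻¹) *
          ∫⁻ p in SS k, (‖b p.1‖ₑ ^ 4 + ‖b p.2‖ₑ ^ 4) := by
        rw [lintegral_const_mul]
        exact ((hb.comp measurable_fst).enorm.pow_const 4).add
          ((hb.comp measurable_snd).enorm.pow_const 4)
    _ ≤ ENNReal.ofReal (Real.pi / 2 * ((1 / 2) ^ k)⁻¹) *
          (ENNReal.ofReal ((1 / 2) ^ k) * (2 * ∫⁻ θ in Q, ‖b θ‖ₑ ^ 4)) :=
        mul_le_mul' le_rfl (strip (fun θ => ‖b θ‖ₑ ^ 4) (hb.enorm.pow_const 4) k)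
    _ = ENNReal.ofReal Real.pi * ∫⁻ θ in Q, ‖b θ‖ₑ ^ 4 := by
        rw [← mul_assoc, ← ENNReal.ofReal_mul (by positivity), ← mul_assoc]
        congr 1
        rw [show (2 : ℝ≥0∞) = ENNReal.ofReal 2 by norm_num, ← ENNReal.ofReal_mul (by positivity)]
        congr 1
        field_simp

theorem GG_memLp (b : ℝ → ℂ) (M : ℝ) (hb : Measurable b) (hM : ∀ u, ‖b u‖ ≤ M) (k : ℕ)
    (p : ℝ≥0∞) : MemLp (GG b k) p volume := by
  have hδ : (0 : ℝ) < (1 / 2) ^ k := by positivity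
  have hpi := Real.pi_pos
  have hM0 : 0 ≤ M := (norm_nonneg _).trans (hM 0)
  have hfin : volume (Ph '' SS k) ≠ ⊤ := by
    have h1 : Ph '' SS k ⊆ Icc (-2 : ℝ) 2 ×ˢ Icc (-2 : ℝ) 2 := by
      rintro _ ⟨p, _, rfl⟩
      unfold Ph
      refine ⟨⟨?_, ?_⟩, ⟨?_, ?_⟩⟩ <;> simp only
      · linarith [Real.neg_one_le_cos p.1, Real.neg_one_le_cos p.2]
      · linarith [Real.cos_le_one p.1, Real.cos_le_one p.2]
      · linarith [Real.neg_one_le_sin p.1, Real.neg_one_le_sin p.2]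
      · linarith [Real.sin_le_one p.1, Real.sin_le_one p.2]
    refine ne_top_of_le_ne_top ?_ (measure_mono h1)
    rw [Measure.volume_eq_prod, Measure.prod_prod, Real.volume_Icc]
    exact ENNReal.mul_ne_top ENNReal.ofReal_ne_top ENNReal.ofReal_ne_top
  have h2 : MemLp ((Ph '' SS k).indicator (G0 b)) p volume := by
    rw [memLp_indicator_iff_restrict (image_meas k)]
    have : IsFiniteMeasure (volume.restrict (Ph '' SS k)) :=
      ⟨by rw [Measure.restrict_apply_univ]; exact lt_top_iff_ne_top.2 hfin⟩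
    refine MemLp.of_bound (G0_meas b hb).aestronglyMeasurable
      (M * M * (Real.pi / 2 * ((1 / 2) ^ k)⁻¹)) ((ae_restrict_iff' (image_meas k)).2
        (ae_of_all _ ?_))
    rintro _ ⟨p, hp, rfl⟩
    have hs := sin_lower hp
    have hs0 : 0 < Real.sin (p.2 - p.1) := lt_of_lt_of_le (by positivity) hs
    unfold G0
    rw [Ps_Ph (SS_sub k hp), norm_mul, norm_mul, Complex.norm_real, Real.norm_eq_abs,
      abs_of_pos (inv_pos.2 hs0)]
    refine mul_le_mul (mul_le_mul (hM _) (hM _) (norm_nonneg _) hM0) ?_ (by positivity)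
      (by positivity)
    rw [inv_le_comm₀ hs0 (by positivity)]
    refine le_trans (le_of_eq ?_) hs
    field_simp
  exact h2.comp_measurePreserving pr_mp

theorem scale (f : E 2 → ℝ≥0∞) (hf : Measurable f) (a : ℝ) (ha : 0 < a) :
    ∫⁻ x, f (a⁻¹ • x) = ENNReal.ofReal (a ^ 2) * ∫⁻ x, f x := by
  have h1 := Measure.map_addHaar_smul (volume : Measure (E 2)) (inv_ne_zero ha.ne')
  have h2 : ∫⁻ x, f (a⁻¹ • x) = ∫⁻ y, f y ∂(Measure.map (a⁻¹ • ·) (volume : Measure (E 2))) := by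
    rw [lintegral_map hf (measurable_const_smul _)]
  rw [h2, h1, lintegral_smul_measure, smul_eq_mul]
  congr 2
  rw [finrank_euclideanSpace, Fintype.card_fin, inv_pow, inv_inv, abs_of_pos (by positivity)]

theorem HH_l2 (b : ℝ → ℂ) (M : ℝ) (hb : Measurable b) (hM : ∀ u, ‖b u‖ ≤ M) (k : ℕ) :
    ∫⁻ x, ‖HH b k x‖ₑ ^ 2 ≤ ENNReal.ofReal (4 * Real.pi ^ 3) * ∫⁻ θ in Q, ‖b θ‖ₑ ^ 4 := by
  have hpi := Real.pi_pos
  have h1 : Integrable (GG b k) := memLp_one_iff_integrable.1 (GG_memLp b M hb hM k 1)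
  have h2 := GG_memLp b M hb hM k 2
  obtain ⟨hm, he⟩ := Pool.Agent.Helper390.Covario.plancherel h1 h2
  have hFm : Measurable (𝓕 (GG b k)) := by
    have h3 : Measurable fun x => HH b k ((2 * Real.pi) • x) :=
      (HH_meas b hb k).comp (measurable_const_smul _)
    have h4 : (fun x => HH b k ((2 * Real.pi) • x)) = 𝓕 (GG b k) := by
      funext x
      rw [HH_eq, smul_smul, inv_mul_cancel₀ (by positivity), one_smul]
    rwa [h4] at h3
  have hint : Integrable (fun x => ‖𝓕 (GG b k) x‖ ^ 2) :=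
    (memLp_two_iff_integrable_sq_norm hm.aestronglyMeasurable).1 hm
  have hintf : Integrable (fun x => ‖GG b k x‖ ^ 2) :=
    (memLp_two_iff_integrable_sq_norm h2.aestronglyMeasurable).1 h2
  have e0 : ∀ z : ℂ, ‖z‖ₑ ^ 2 = ENNReal.ofReal (‖z‖ ^ 2) := fun z => by
    rw [ENNReal.ofReal_pow (norm_nonneg _), ofReal_norm]
  have e1 : ∫⁻ x, ‖𝓕 (GG b k) x‖ₑ ^ 2 = ∫⁻ x, ‖GG b k x‖ₑ ^ 2 := by
    simp_rw [e0]
    rw [← ofReal_integral_eq_lintegral_ofReal hint (ae_of_all _ fun _ => by positivity),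
      ← ofReal_integral_eq_lintegral_ofReal hintf (ae_of_all _ fun _ => by positivity), he]
  calc ∫⁻ x, ‖HH b k x‖ₑ ^ 2 = ∫⁻ x, ‖𝓕 (GG b k) ((2 * Real.pi)⁻¹ • x)‖ₑ ^ 2 := by
        simp_rw [HH_eq]
    _ = ENNReal.ofReal ((2 * Real.pi) ^ 2) * ∫⁻ x, ‖𝓕 (GG b k) x‖ₑ ^ 2 :=
        scale (fun x => ‖𝓕 (GG b k) x‖ₑ ^ 2) (hFm.enorm.pow_const 2) _ (by positivity)
    _ ≤ ENNReal.ofReal ((2 * Real.pi) ^ 2) *
          (ENNReal.ofReal Real.pi * ∫⁻ θ in Q, ‖b θ‖ₑ ^ 4) := by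
        rw [e1]
        exact mul_le_mul' le_rfl (GG_l2 b hb k)
    _ = ENNReal.ofReal (4 * Real.pi ^ 3) * ∫⁻ θ in Q, ‖b θ‖ₑ ^ 4 := by
        rw [← mul_assoc, ← ENNReal.ofReal_mul (by positivity)]
        congr 2
        ring

/-- the estimate for a quarter circle -/
theorem quarter (q : ℝ) (hq : 4 < q) : ∃ C : ℝ≥0, ∀ b : ℝ → ℂ, Measurable b →
    (∃ M : ℝ, ∀ z, ‖b z‖ ≤ M) →
    ∫⁻ x : E 2, ‖FF b x‖ₑ ^ q ≤ C * (∫⁻ θ in Q, ‖b θ‖ₑ ^ 4) ^ (q / 4) := by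
  obtain ⟨C, hC⟩ := dyadic_sum (volume : Measure (E 2)) (q / 2) (by linarith) 8
    (4 * (4 * Real.pi ^ 3).toNNReal)
  refine ⟨C, fun b hb hM => ?_⟩
  obtain ⟨M, hM⟩ := hM
  have h := hC (∫⁻ θ in Q, ‖b θ‖ₑ ^ 4) (fun x => ‖FF b x‖ₑ ^ 2) (fun k x => 2 * ‖HH b k x‖ₑ)
    (fun k => (HH_meas b hb k).enorm.const_mul 2) (fun x => FF_le b M hb hM x) ?_ ?_
  · have e1 : ∀ x, (‖FF b x‖ₑ ^ 2) ^ (q / 2) = ‖FF b x‖ₑ ^ q := by
      intro x
      rw [← ENNReal.rpow_two, ← ENNReal.rpow_mul]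
      congr 1
      ring
    have e2 : q / 2 / 2 = q / 4 := by ring
    simp only [e1, e2] at h
    exact h
  · intro k x
    calc 2 * ‖HH b k x‖ₑ ≤ 2 * (ENNReal.ofReal ((1 / 2) ^ k) *
          (4 * (∫⁻ θ in Q, ‖b θ‖ₑ ^ 4) ^ (1 / 2 : ℝ))) := mul_le_mul' le_rfl (HH_sup b hb k x)
      _ = ENNReal.ofReal ((1 / 2) ^ k) * (((8 : ℝ≥0) : ℝ≥0∞) *
          (∫⁻ θ in Q, ‖b θ‖ₑ ^ 4) ^ (1 / 2 : ℝ)) := by
          have : ((8 : ℝ≥0) : ℝ≥0∞) = 2 * 4 := by norm_num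
          rw [this]
          ring
  · intro k
    have e3 : ∀ x, (2 * ‖HH b k x‖ₑ) ^ 2 = 4 * ‖HH b k x‖ₑ ^ 2 := by
      intro x
      rw [mul_pow]
      norm_num
    simp_rw [e3]
    rw [lintegral_const_mul _ ((HH_meas b hb k).enorm.pow_const 2)]
    refine (mul_le_mul' le_rfl (HH_l2 b M hb hM k)).trans (le_of_eq ?_)
    rw [ENNReal.coe_mul, mul_assoc]
    rfl

end Pool.Agent.TH554.J1595
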